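import Mathlib

set_option autoImplicit false

universe u

namespace Pool.Agent.Results.MP_216313_al.AntiTori

open Polynomial

/-- The defining relators of `G_X`: generators `a_i` (left) and `x_j` (right), relators
`a_i x_j (x_{i+j} a_{i-j})⁻¹`. -/
def rels (X : Type u) [AddCommGroup X] : Set (FreeGroup (X ⊕ X)) :=
  {w | ∃ i j : X, w = FreeGroup.of (Sum.inl i) * FreeGroup.of (Sum.inr j) *
    (FreeGroup.of (Sum.inr (i + j)) * FreeGroup.of (Sum.inl (i - j)))⁻¹}

/-- The group `G_X`. -/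
abbrev G (X : Type u) [AddCommGroup X] : Type u := PresentedGroup (rels X)

/-- The vertical generators. -/
def a {X : Type u} [AddCommGroup X] (i : X) : G X := PresentedGroup.of (Sum.inl i)

/-- The horizontal generators. -/
def x {X : Type u} [AddCommGroup X] (j : X) : G X := PresentedGroup.of (Sum.inr j)

/-- Two elements `g`, `h` generate an anti-torus if no nontrivial powers of them commute. -/
def AntiTorus {Γ : Type u} [Group Γ] (g h : Γ) : Prop :=
  ∀ p q : ℤ, p ≠ 0 → q ≠ 0 → g ^ p * h ^ q ≠ h ^ q * g ^ p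

section Ring

variable {R : Type u} [CommRing R]

lemma unit_coeff_mem {f : R[X]} (h : IsUnit (f.coeff 0)) : f ∈ nonZeroDivisors R[X] := by
  rw [mem_nonZeroDivisors_iff_right]
  intro g hg
  have h1 : IsUnit (f : PowerSeries R) := by
    rw [PowerSeries.isUnit_iff_constantCoeff]
    simpa using h
  have h2 : (g : PowerSeries R) * (f : PowerSeries R) = 0 := by
    rw [← Polynomial.coe_mul, hg, Polynomial.coe_zero]
  have h3 : (g : PowerSeries R) = 0 := by
    obtain ⟨v, hv⟩ := h1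
    rw [← hv] at h2
    exact (Units.mul_left_eq_zero v).1 h2
  exact Polynomial.coe_injective R (by rw [h3, Polynomial.coe_zero])

lemma monic_mem [Nontrivial R] {p : ℕ} (hp : p ≠ 0) :
    ((X + 1 : R[X]) ^ p - 1) ∈ nonZeroDivisors R[X] := by
  apply Polynomial.Monic.mem_nonZeroDivisors
  have h1 : (X + 1 : R[X]).Monic := by
    have := monic_X_add_C (1 : R)
    simpa using this
  apply (h1.pow p).sub_of_left
  apply Polynomial.degree_lt_degree
  rw [h1.natDegree_pow, natDegree_one]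
  have : (X + 1 : R[X]).natDegree = 1 := by
    have := natDegree_X_add_C (1 : R)
    simpa using this
  rw [this]
  omega

lemma diff_mem {q : ℕ} (hq : q ≠ 0) :
    ((X - 1 : R[X]) ^ q - X ^ q) ∈ nonZeroDivisors R[X] := by
  apply unit_coeff_mem
  rw [coeff_zero_eq_eval_zero]
  simp only [eval_sub, eval_pow, eval_X, eval_one, zero_sub, zero_pow hq, sub_zero]
  exact (isUnit_one.neg).pow q

/-- The affine permutation `y ↦ u y + m`. -/
def aff {A : Type u} [CommRing A] (v : Aˣ) (m : A) : Equiv.Perm A where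
  toFun y := v * y + m
  invFun y := (v⁻¹ : Aˣ) * (y - m)
  left_inv y := by simp
  right_inv y := by simp

lemma aff_pow {A : Type u} [CommRing A] (v : Aˣ) (m : A) (n : ℕ) (y : A) :
    ((aff v m) ^ n) y = (v : A) ^ n * y + (∑ k ∈ Finset.range n, (v : A) ^ k) * m := by
  induction n with
  | zero => simp
  | succ n ih =>
    rw [pow_succ', Equiv.Perm.mul_apply, ih]
    show (v : A) * _ + m = _
    rw [geom_sum_succ]
    ring

section Rep

variable (X' : Type u) [AddCommGroup X']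

/-- A ring representation datum: a ring, three units and an additive map. -/
structure Datum (A : Type u) [CommRing A] where
  /-- the additive map -/
  φ : X' →+ A
  /-- the unit `σ` -/
  σ : Aˣ
  /-- the unit `τ` -/
  τ : Aˣ
  /-- the relation -/
  rel : (σ : A) * (1 - τ) = 1 - 2 * τ

variable {X'} {A : Type u} [CommRing A] (D : Datum X' A)

/-- The images of the generators. -/
def gen : X' ⊕ X' → Equiv.Perm A
  | Sum.inl i => aff D.σ (D.φ i)
  | Sum.inr j => aff D.τ ((1 - D.τ) * D.φ j)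

lemma gen_rels (r : FreeGroup (X' ⊕ X')) (hr : r ∈ rels X') :
    FreeGroup.lift (gen D) r = 1 := by
  obtain ⟨i, j, rfl⟩ := hr
  rw [map_mul, map_inv, mul_inv_eq_one]
  simp only [map_mul, FreeGroup.lift_apply_of, gen]
  ext y
  simp only [Equiv.Perm.mul_apply]
  show (D.σ : A) * ((D.τ : A) * y + (1 - D.τ) * D.φ j) + D.φ i =
    (D.τ : A) * ((D.σ : A) * y + D.φ (i - j)) + (1 - D.τ) * D.φ (i + j)
  rw [map_sub, map_add]
  linear_combination D.φ j * D.rel

/-- The representation of `G_X` by affine permutations. -/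
def rep : G X' →* Equiv.Perm A := PresentedGroup.toGroup (gen_rels D)

lemma rep_a (i : X') : rep D (a i) = aff D.σ (D.φ i) := PresentedGroup.toGroup.of _

lemma rep_x (j : X') : rep D (x j) = aff D.τ ((1 - D.τ) * D.φ j) := PresentedGroup.toGroup.of _

lemma anti_of_datum (i j : X') (h1 : ∀ p : ℕ, p ≠ 0 → (D.σ : A) ^ p - 1 ∈ nonZeroDivisors A)
    (h2 : ∀ q : ℕ, q ≠ 0 → (1 - (D.τ : A) ^ q) ∈ nonZeroDivisors A)
    (h3 : D.φ i + (D.σ - 1) * D.φ j ≠ 0) : AntiTorus (a i : G X') (x j) := by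
  have key : ∀ p q : ℕ, p ≠ 0 → q ≠ 0 → ¬ Commute ((a i : G X') ^ p) (x j ^ q) := by
    intro p q hp hq hc
    have e := congrArg (fun g : Equiv.Perm A => g 0) (congrArg (rep D) hc.eq)
    simp only [map_mul, map_pow, rep_a, rep_x, Equiv.Perm.mul_apply, aff_pow] at e
    apply h3
    have g1 := mul_geom_sum (D.σ : A) p
    have g2 := mul_geom_sum (D.τ : A) q
    set S := ∑ k ∈ Finset.range p, (D.σ : A) ^ k with hS
    set T := ∑ k ∈ Finset.range q, (D.τ : A) ^ k with hT
    have e1 : (S * (D.φ i + (D.σ - 1) * D.φ j)) * (1 - (D.τ : A) ^ q) = 0 := by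
      linear_combination e + (1 - (D.τ : A) ^ q) * D.φ j * g1 + ((D.σ : A) ^ p - 1) * D.φ j * g2
    have e2 := (mem_nonZeroDivisors_iff_right.1 (h2 q hq)) _ e1
    have e3 : (D.φ i + (D.σ - 1) * D.φ j) * ((D.σ : A) ^ p - 1) = 0 := by
      rw [← g1]
      linear_combination ((D.σ : A) - 1) * e2
    exact (mem_nonZeroDivisors_iff_right.1 (h1 p hp)) _ e3
  intro p q hp hq hc
  have hp' : p.natAbs ≠ 0 := Int.natAbs_ne_zero.2 hp
  have hq' : q.natAbs ≠ 0 := Int.natAbs_ne_zero.2 hq
  apply key p.natAbs q.natAbs hp' hq'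
  have hc' : Commute ((a i : G X') ^ p) (x j ^ q) := hc
  rcases Int.natAbs_eq p with h | h <;> rcases Int.natAbs_eq q with h' | h' <;>
    rw [h, h'] at hc' <;>
    simpa only [zpow_neg, zpow_natCast, Commute.inv_left_iff, Commute.inv_right_iff] using hc'

end Rep

end Ring

section Construction

variable (R : Type u) [CommRing R]

/-- The ring of fractions of `R[Y]`. -/
abbrev Q : Type u := FractionRing R[X]

/-- The unit of the fraction ring given by a nonzerodivisor of the polynomial ring. -/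
noncomputable def unitOf (f : R[X]) (hf : f ∈ nonZeroDivisors R[X]) : (Q R)ˣ :=
  (IsLocalization.map_units (Q R) (⟨f, hf⟩ : nonZeroDivisors R[X])).unit

lemma unitOf_val (f : R[X]) (hf : f ∈ nonZeroDivisors R[X]) :
    (unitOf R f hf : Q R) = algebraMap R[X] (Q R) f := rfl

lemma Y_mem : (X : R[X]) ∈ nonZeroDivisors R[X] := monic_X.mem_nonZeroDivisors

lemma Y1_mem : (X + 1 : R[X]) ∈ nonZeroDivisors R[X] := by
  apply Polynomial.Monic.mem_nonZeroDivisors
  have := monic_X_add_C (1 : R)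
  simpa using this

lemma Y2_mem : (X - 1 : R[X]) ∈ nonZeroDivisors R[X] := by
  apply Polynomial.Monic.mem_nonZeroDivisors
  have := monic_X_sub_C (1 : R)
  simpa using this

lemma map_mem {f : R[X]} (hf : f ∈ nonZeroDivisors R[X]) :
    algebraMap R[X] (Q R) f ∈ nonZeroDivisors (Q R) := by
  have : IsUnit (algebraMap R[X] (Q R) f) :=
    IsLocalization.map_units (Q R) (⟨f, hf⟩ : nonZeroDivisors R[X])
  exact this.mem_nonZeroDivisors

variable {R} {X' : Type u} [AddCommGroup X']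

/-- The datum attached to an additive map of `X` to a commutative ring. -/
noncomputable def datum (ψ : X' →+ R) : Datum X' (Q R) where
  φ := (algebraMap R[X] (Q R)).toAddMonoidHom.comp ((C : R →+* R[X]).toAddMonoidHom.comp ψ)
  σ := unitOf R (X + 1) (Y1_mem R)
  τ := unitOf R X (Y_mem R) * (unitOf R (X - 1) (Y2_mem R))⁻¹
  rel := by
    have h : ((unitOf R (X - 1) (Y2_mem R) : (Q R)ˣ) : Q R) *
        (((unitOf R (X - 1) (Y2_mem R))⁻¹ : (Q R)ˣ) : Q R) = 1 := Units.mul_inv _
    rw [Units.val_mul, unitOf_val, unitOf_val]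
    rw [unitOf_val] at h
    rw [map_add, map_one]
    rw [map_sub, map_one] at h
    linear_combination (-(algebraMap R[X] (Q R) X)) * h

lemma datum_h1 [Nontrivial R] (ψ : X' →+ R) (p : ℕ) (hp : p ≠ 0) :
    ((datum ψ).σ : Q R) ^ p - 1 ∈ nonZeroDivisors (Q R) := by
  have := map_mem R (monic_mem (R := R) hp)
  rw [map_sub, map_pow, map_one] at this
  exact this

lemma datum_h2 (ψ : X' →+ R) (q : ℕ) (hq : q ≠ 0) :
    1 - ((datum ψ).τ : Q R) ^ q ∈ nonZeroDivisors (Q R) := by
  have h1 := map_mem R (diff_mem (R := R) hq)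
  have h : ((unitOf R (X - 1) (Y2_mem R) : (Q R)ˣ) : Q R) *
        (((unitOf R (X - 1) (Y2_mem R))⁻¹ : (Q R)ˣ) : Q R) = 1 := Units.mul_inv _
  have h2 : (((unitOf R (X - 1) (Y2_mem R))⁻¹ : (Q R)ˣ) : Q R) ^ q ∈ nonZeroDivisors (Q R) :=
    (((unitOf R (X - 1) (Y2_mem R))⁻¹).isUnit.pow q).mem_nonZeroDivisors
  have h3 : 1 - ((datum ψ).τ : Q R) ^ q = algebraMap R[X] (Q R) ((X - 1 : R[X]) ^ q - X ^ q) *
      (((unitOf R (X - 1) (Y2_mem R))⁻¹ : (Q R)ˣ) : Q R) ^ q := by
    show 1 - (((unitOf R X (Y_mem R) * (unitOf R (X - 1) (Y2_mem R))⁻¹ : (Q R)ˣ)) : Q R) ^ q = _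
    rw [Units.val_mul, unitOf_val, mul_pow, map_sub, map_pow, map_pow, sub_mul, ← mul_pow, ← mul_pow]
    rw [unitOf_val] at h
    rw [h, one_pow]
  rw [h3]
  exact mul_mem h1 h2

lemma datum_h3 (ψ : X' →+ R) (i j : X') (hij : ψ i ≠ 0 ∨ ψ j ≠ 0) :
    (datum ψ).φ i + ((datum ψ).σ - 1) * (datum ψ).φ j ≠ 0 := by
  have h1 : (datum ψ).φ i + ((datum ψ).σ - 1) * (datum ψ).φ j =
      algebraMap R[X] (Q R) (C (ψ i) + X * C (ψ j)) := by
    show algebraMap R[X] (Q R) (C (ψ i)) + (algebraMap R[X] (Q R) (X + 1) - 1) *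
      algebraMap R[X] (Q R) (C (ψ j)) = _
    rw [map_add, map_add, map_one, map_mul]
    ring
  rw [h1]
  intro h
  have h2 : (C (ψ i) + X * C (ψ j) : R[X]) = 0 := by
    apply IsFractionRing.injective R[X] (Q R)
    rw [h, map_zero]
  have h3 := congrArg (fun f : R[X] => f.coeff 0) h2
  have h4 := congrArg (fun f : R[X] => f.coeff 1) h2
  simp at h3 h4
  rcases hij with h5 | h5
  · exact h5 h3
  · exact h5 h4
end Construction

/-- **Every pair `a_i`, `x_j` with `(i, j) ≠ (0, 0)` generates an anti-torus.** -/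
theorem result (X : Type u) [AddCommGroup X] (i j : X) (hij : (i, j) ≠ (0, 0)) :
    AntiTorus (a i : G X) (x j : G X) := by
  let _ : Module ℤᵐᵒᵖ X := Module.compHom X ((RingHom.id ℤ).fromOpposite mul_comm)
  have : IsCentralScalar ℤ X := ⟨fun r m => rfl⟩
  let ψ : X →+ TrivSqZeroExt ℤ X := (TrivSqZeroExt.inrHom ℤ X).toAddMonoidHom
  have hψ : ∀ y : X, y ≠ 0 → ψ y ≠ 0 := by
    intro y hy h
    apply hy
    exact TrivSqZeroExt.inr_injective (R := ℤ) (by simpa [ψ] using h)
  have hij' : ψ i ≠ 0 ∨ ψ j ≠ 0 := by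
    by_cases hi : i = 0
    · right
      apply hψ
      rintro rfl
      exact hij (by rw [hi])
    · left
      exact hψ i hi
  have : Nontrivial (TrivSqZeroExt ℤ X) := by
    rcases hij' with h | h
    · exact ⟨⟨_, _, h⟩⟩
    · exact ⟨⟨_, _, h⟩⟩
  exact anti_of_datum (datum ψ) i j (datum_h1 ψ) (datum_h2 ψ) (datum_h3 ψ i j hij')

end Pool.Agent.Results.MP_216313_al.AntiTori
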